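import Mathlib
import Pool.Agent.Helper8.Transfer.Defs
import Pool.Agent.Helper13.Order.KronDense

/-! T2 (choose_tau) for MP_e6fa8b_nt, written by helper36. -/

namespace Pool.Agent.Helper8.Transfer

open Polynomial Finset Filter Topology Pool.Agent.Helper8.Dilation Pool.Agent.Helper8.Order

/-- T2: good frequencies which satisfy the Kronecker conditions -/
theorem choose_tau (Q : Finset ℕ) (hQ : ∀ p ∈ Q, p.Prime) (σ : ℕ → ℝ)
    (hσ : ∀ p, σ p = 1 ∨ σ p = -1) (δ : ℝ) (hδ : 0 < δ) :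
    ∃ A : ℝ, 0 < A ∧ ∃ X0 : ℝ, 1 ≤ X0 ∧ ∀ X : ℝ, X0 ≤ X → ∀ (Φ : ℝ → ℝ), Continuous Φ →
      (∀ t, 0 ≤ Φ t) → ∀ R : ℝ, ∫ t in X..(2 * X), Φ t ≤ R * X →
      ∃ τ : ℝ, X ≤ τ ∧ τ ≤ 2 * X ∧ Φ τ ≤ A * R ∧
        ∃ m : ℕ → ℤ, ∀ p ∈ Q, |τ * Real.log p - m p| ≤ δ ∧ (-1 : ℝ) ^ (m p) = σ p := by
  obtain ⟨G, hG, hk⟩ := Pool.Agent.Helper13.Order.kron_dense Q hQ σ hσ (δ / 2) (by positivity)
  set L : ℝ := ∑ p ∈ Q, |Real.log p| + 1 with hL
  have hL0 : 0 < L := by
    have : 0 ≤ ∑ p ∈ Q, |Real.log p| := Finset.sum_nonneg fun _ _ => abs_nonneg _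
    linarith
  have hlog : ∀ p ∈ Q, |Real.log p| ≤ L := by
    intro p hp
    have := Finset.single_le_sum (f := fun p : ℕ => |Real.log p|) (fun _ _ => abs_nonneg _) hp
    linarith
  set ρ : ℝ := δ / (2 * L) with hρ
  have hρ0 : 0 < ρ := by positivity
  set len : ℝ := G + 2 * ρ with hlen
  have hlen0 : 0 < len := by positivity
  refine ⟨len / ρ, by positivity, max 1 (2 * len), le_max_left _ _, ?_⟩
  intro X hX Φ hΦ hΦ0 R hR
  have hX1 : 1 ≤ X := (le_max_left _ _).trans hX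
  have hX2 : 2 * len ≤ X := (le_max_right _ _).trans hX
  have hint : ∀ a b : ℝ, IntervalIntegrable Φ MeasureTheory.volume a b :=
    fun a b => hΦ.intervalIntegrable a b
  have hR0 : 0 ≤ R := by
    have h1 : 0 ≤ ∫ t in X..(2 * X), Φ t :=
      intervalIntegral.integral_nonneg (by linarith) fun t _ => hΦ0 t
    by_contra h
    push Not at h
    nlinarith
  set M : ℕ := ⌊X / len⌋₊ with hM
  have hMle : (M : ℝ) * len ≤ X := by
    have := Nat.floor_le (a := X / len) (by positivity)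
    rw [← hM] at this
    rwa [le_div_iff₀ hlen0] at this
  have hMge : X ≤ 2 * len * M := by
    have h1 := Nat.lt_floor_add_one (X / len)
    rw [← hM, div_lt_iff₀ hlen0] at h1
    nlinarith
  have hMpos : 0 < M := by
    rcases Nat.eq_zero_or_pos M with h | h
    · rw [h] at hMge; simp at hMge; linarith
    · exact h
  have hMpos' : (0 : ℝ) < M := by exact_mod_cast hMpos
  -- pigeonhole
  obtain ⟨j, hj, hjle⟩ : ∃ j ∈ range M,
      (∫ t in (X + j * len)..(X + (j + 1 : ℕ) * len), Φ t) ≤ R * X / M := by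
    apply Finset.exists_le_of_sum_le (by simpa using hMpos.ne')
    have h1 := intervalIntegral.sum_integral_adjacent_intervals (f := Φ)
      (μ := MeasureTheory.volume) (a := fun j : ℕ => X + j * len) (n := M)
      (fun k _ => hint _ _)
    rw [h1, sum_const, card_range, nsmul_eq_mul, mul_div_cancel₀ _ hMpos'.ne']
    refine le_trans ?_ hR
    rw [Nat.cast_zero, zero_mul, add_zero]
    have h2 := intervalIntegral.integral_add_adjacent_intervals (hint X (X + M * len))
      (hint (X + M * len) (2 * X))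
    have h3 : 0 ≤ ∫ t in (X + M * len)..(2 * X), Φ t :=
      intervalIntegral.integral_nonneg (by linarith) fun t _ => hΦ0 t
    linarith
  rw [mem_range] at hj
  have hjM : ((j : ℝ) + 1) * len ≤ X := by
    have : ((j : ℝ) + 1) ≤ M := by exact_mod_cast hj
    nlinarith
  obtain ⟨τ0, ht1, ht2, m, hm⟩ := hk (X + j * len + ρ)
  have hI1 : X + j * len ≤ τ0 - ρ := by linarith
  have hI2 : τ0 + ρ ≤ X + (j + 1 : ℕ) * len := by
    push_cast
    rw [hlen] at *
    nlinarith
  have hj0 : 0 ≤ (j : ℝ) * len := by positivity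
  -- the minimum on the small interval
  obtain ⟨t, htI, htmin⟩ := (isCompact_Icc (a := τ0 - ρ) (b := τ0 + ρ)).exists_isMinOn
    ⟨τ0, by constructor <;> linarith⟩ hΦ.continuousOn
  have hsmall : 2 * ρ * Φ t ≤ ∫ s in (τ0 - ρ)..(τ0 + ρ), Φ s := by
    have h1 : (∫ s in (τ0 - ρ)..(τ0 + ρ), Φ t) ≤ ∫ s in (τ0 - ρ)..(τ0 + ρ), Φ s := by
      apply intervalIntegral.integral_mono_on (by linarith)
        (intervalIntegrable_const) (hint _ _)
      intro s hs
      exact htmin hs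
    rw [intervalIntegral.integral_const, smul_eq_mul] at h1
    linarith
  have hbig : (∫ s in (τ0 - ρ)..(τ0 + ρ), Φ s) ≤
      ∫ s in (X + j * len)..(X + (j + 1 : ℕ) * len), Φ s := by
    have h1 := intervalIntegral.integral_add_adjacent_intervals (hint (X + j * len) (τ0 - ρ))
      (hint (τ0 - ρ) (τ0 + ρ))
    have h2 := intervalIntegral.integral_add_adjacent_intervals (hint (X + j * len) (τ0 + ρ))
      (hint (τ0 + ρ) (X + (j + 1 : ℕ) * len))
    have h3 : 0 ≤ ∫ t in (X + j * len)..(τ0 - ρ), Φ t :=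
      intervalIntegral.integral_nonneg hI1 fun t _ => hΦ0 t
    have h4 : 0 ≤ ∫ t in (τ0 + ρ)..(X + (j + 1 : ℕ) * len), Φ t :=
      intervalIntegral.integral_nonneg hI2 fun t _ => hΦ0 t
    linarith
  have hjX : ((j + 1 : ℕ) : ℝ) * len ≤ X := by push_cast; exact hjM
  refine ⟨t, ?_, ?_, ?_, m, ?_⟩
  · linarith [htI.1]
  · linarith [htI.2]
  · have h1 : 2 * ρ * Φ t ≤ R * X / M := hsmall.trans (hbig.trans hjle)
    have h2 : R * X / M ≤ 2 * len * R := by
      rw [div_le_iff₀ hMpos']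
      nlinarith
    have h3 : ρ * Φ t ≤ len * R := by linarith
    rw [div_mul_eq_mul_div, le_div_iff₀ hρ0]
    linarith
  · intro p hp
    obtain ⟨h1, h2⟩ := hm p hp
    refine ⟨?_, h2⟩
    have h3 : |t - τ0| ≤ ρ := by
      rw [abs_le]; constructor <;> linarith [htI.1, htI.2]
    have h4 : |(t - τ0) * Real.log p| ≤ δ / 2 := by
      rw [abs_mul]
      have h5 : |t - τ0| * |Real.log p| ≤ ρ * L :=
        mul_le_mul h3 (hlog p hp) (abs_nonneg _) hρ0.le
      have h6 : ρ * L = δ / 2 := by rw [hρ]; field_simp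
      linarith
    calc |t * Real.log p - m p| = |(τ0 * Real.log p - m p) + (t - τ0) * Real.log p| := by
          congr 1; ring
      _ ≤ |τ0 * Real.log p - m p| + |(t - τ0) * Real.log p| := abs_add_le _ _
      _ ≤ δ := by linarith

end Pool.Agent.Helper8.Transfer
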